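import Mathlib

set_option autoImplicit false

namespace Pool.Agent.LibMP91def8al

open Subgroup
open scoped commutatorElement

variable {F Q : Type*} [Group F] [Group Q]

/-- In a nonabelian simple group the commutator subgroup is everything. -/
theorem commutator_top_eq_top [IsSimpleGroup Q] (hQ : ∃ a b : Q, a * b ≠ b * a) :
    ⁅(⊤ : Subgroup Q), (⊤ : Subgroup Q)⁆ = (⊤ : Subgroup Q) := by
  have hn : (⁅(⊤ : Subgroup Q), (⊤ : Subgroup Q)⁆ : Subgroup Q).Normal := inferInstance
  rcases hn.eq_bot_or_eq_top with h | h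
  · exfalso
    obtain ⟨a, b, hab⟩ := hQ
    apply hab
    have h1 : ⁅a, b⁆ ∈ ⁅(⊤ : Subgroup Q), (⊤ : Subgroup Q)⁆ := commutator_mem_commutator (mem_top a) (mem_top b)
    rw [h, mem_bot] at h1
    exact commutatorElement_eq_one_iff_mul_comm.mp h1
  · exact h

theorem map_commutator_eq_top [IsSimpleGroup Q] (hQ : ∃ a b : Q, a * b ≠ b * a)
    (ρ : F →* Q) {A B : Subgroup F} (hA : A.map ρ = ⊤) (hB : B.map ρ = ⊤) :
    (⁅A, B⁆ : Subgroup F).map ρ = ⊤ := by
  rw [map_commutator, hA, hB, commutator_top_eq_top hQ]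

theorem map_inf_eq_top [IsSimpleGroup Q] (hQ : ∃ a b : Q, a * b ≠ b * a)
    (ρ : F →* Q) {A B : Subgroup F} (nA : A.Normal) (nB : B.Normal)
    (hA : A.map ρ = ⊤) (hB : B.map ρ = ⊤) :
    (A ⊓ B).map ρ = ⊤ := by
  have h := map_commutator_eq_top hQ ρ hA hB
  have h2 : (⁅A, B⁆ : Subgroup F) ≤ A ⊓ B := commutator_le_inf A B
  exact top_le_iff.mp (h ▸ map_mono h2)

theorem inf_normal {ι : Type*} (s : Finset ι) (A : ι → Subgroup F)
    (hn : ∀ i ∈ s, (A i).Normal) : (s.inf A).Normal := by
  classical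
  induction s using Finset.induction_on with
  | empty => simp only [Finset.inf_empty]; infer_instance
  | insert a s ha ih =>
    rw [Finset.inf_insert]
    have := hn a (Finset.mem_insert_self _ _)
    have := ih (fun i hi => hn i (Finset.mem_insert_of_mem hi))
    infer_instance

theorem map_finset_inf_eq_top [IsSimpleGroup Q] (hQ : ∃ a b : Q, a * b ≠ b * a)
    (ρ : F →* Q) (hρ : Function.Surjective ρ) {ι : Type*} (s : Finset ι) (A : ι → Subgroup F)
    (hn : ∀ i ∈ s, (A i).Normal) (hA : ∀ i ∈ s, (A i).map ρ = ⊤) :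
    (s.inf A).map ρ = ⊤ := by
  classical
  induction s using Finset.induction_on with
  | empty => simpa using map_top_of_surjective ρ hρ
  | insert a s ha ih =>
    rw [Finset.inf_insert]
    exact map_inf_eq_top hQ ρ (hn a (Finset.mem_insert_self _ _))
      (inf_normal s A (fun i hi => hn i (Finset.mem_insert_of_mem hi)))
      (hA a (Finset.mem_insert_self _ _))
      (ih (fun i hi => hn i (Finset.mem_insert_of_mem hi))
        (fun i hi => hA i (Finset.mem_insert_of_mem hi)))

/-- If the kernel of `τ` is not killed by the surjection `ρ` onto a simple group, it maps onto. -/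
theorem map_ker_eq_top [IsSimpleGroup Q] (ρ τ : F →* Q) (hρ : Function.Surjective ρ)
    (h : ¬ τ.ker ≤ ρ.ker) : τ.ker.map ρ = ⊤ := by
  have hn : (τ.ker.map ρ).Normal := Normal.map inferInstance ρ hρ
  rcases hn.eq_bot_or_eq_top with h1 | h1
  · exfalso
    apply h
    exact (map_eq_bot_iff τ.ker).mp h1
  · exact h1

/-- kernel inclusion plus a cardinality count. -/
theorem ker_le_imp [Finite Q] (ρ τ : F →* Q) (hρ : Function.Surjective ρ)
    (h : τ.ker ≤ ρ.ker) : Function.Surjective τ ∧ τ.ker = ρ.ker := by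
  have h1 : τ.ker.index = Nat.card τ.range := index_ker τ
  have h2 : ρ.ker.index = Nat.card ρ.range := index_ker ρ
  have h3 : Nat.card ρ.range = Nat.card Q := by
    rw [MonoidHom.range_eq_top.mpr hρ]; exact card_top
  have h4 : ρ.ker.index ∣ τ.ker.index := index_dvd_of_le h
  have hpos : 0 < Nat.card τ.range := Nat.card_pos
  have h5 : Nat.card Q ≤ Nat.card τ.range := by
    rw [h1, h2, h3] at h4
    exact Nat.le_of_dvd hpos h4
  have h6 : τ.range = ⊤ := by
    apply eq_top_of_card_eq
    exact le_antisymm (card_le_card_group _) h5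
  have hs : Function.Surjective τ := MonoidHom.range_eq_top.mp h6
  refine ⟨hs, ?_⟩
  have h7 : τ.ker.relIndex ρ.ker * ρ.ker.index = τ.ker.index := relIndex_mul_index h
  have h8 : τ.ker.relIndex ρ.ker = 1 := by
    rw [h1, h2, h3, h6] at h7
    have h9 : Nat.card (⊤ : Subgroup Q) = Nat.card Q := card_top
    rw [h9] at h7
    have : 0 < Nat.card Q := Nat.card_pos
    exact Nat.eq_of_mul_eq_mul_right this (by rw [h7, one_mul])
  exact le_antisymm h (relIndex_eq_one.mp h8)

theorem exists_word [Finite Q] [IsSimpleGroup Q] (hQ : ∃ a b : Q, a * b ≠ b * a)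
    [Finite (F →* Q)] (c : Q) :
    ∃ w : F, w ∈ commutator F ∧
      (∀ τ : F →* Q, ¬ Function.Surjective τ → w ∈ ⁅τ.ker, τ.ker⁆) ∧
      ∀ ρ : F →* Q, Function.Surjective ρ → orderOf (ρ w) = orderOf c := by
  classical
  have := Fintype.ofFinite (F →* Q)
  set NS : Finset (F →* Q) := Finset.univ.filter (fun τ : F →* Q => ¬ Function.Surjective τ)
    with hNS
  set B : Subgroup F := commutator F ⊓ NS.inf (fun τ => ⁅τ.ker, τ.ker⁆) with hB
  have nNS : (NS.inf (fun τ : F →* Q => ⁅τ.ker, τ.ker⁆)).Normal :=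
    inf_normal _ _ (fun i _ => inferInstance)
  have nB : B.Normal := by
    rw [hB]; infer_instance
  have hBtop : ∀ ρ : F →* Q, Function.Surjective ρ → B.map ρ = ⊤ := by
    intro ρ hρ
    apply map_inf_eq_top hQ ρ inferInstance nNS
    · have htop : (⊤ : Subgroup F).map ρ = ⊤ := map_top_of_surjective ρ hρ
      exact map_commutator_eq_top hQ ρ htop htop
    · apply map_finset_inf_eq_top hQ ρ hρ
      · intro i _; infer_instance
      · intro τ hτ
        have hτ' : ¬ Function.Surjective τ := by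
          simpa [hNS] using hτ
        have hk : τ.ker.map ρ = ⊤ := map_ker_eq_top ρ τ hρ
          (fun h => hτ' (ker_le_imp ρ τ hρ h).1)
        exact map_commutator_eq_top hQ ρ hk hk
  have key : ∀ S : Finset (F →* Q), (∀ ρ ∈ S, Function.Surjective ρ) →
      ∃ w ∈ B, ∀ ρ ∈ S, orderOf (ρ w) = orderOf c := by
    intro S
    induction S using Finset.induction_on with
    | empty => intro _; exact ⟨1, B.one_mem, by simp⟩
    | insert ρ S hρS ih =>
      intro hS
      obtain ⟨w, hwB, hw⟩ := ih (fun τ hτ => hS τ (Finset.mem_insert_of_mem hτ))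
      have hρ := hS ρ (Finset.mem_insert_self _ _)
      by_cases hk : ∃ τ ∈ S, τ.ker = ρ.ker
      · obtain ⟨τ, hτ, hker⟩ := hk
        refine ⟨w, hwB, ?_⟩
        intro σ hσ
        rcases Finset.mem_insert.mp hσ with rfl | hσ
        · rw [← hw τ hτ]
          apply orderOf_eq_orderOf_iff.mpr
          intro n
          rw [← map_pow, ← map_pow, ← MonoidHom.mem_ker, ← MonoidHom.mem_ker, hker]
        · exact hw σ hσ
      · push Not at hk
        have hT : (B ⊓ S.inf (fun τ : F →* Q => τ.ker)).map ρ = ⊤ := by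
          apply map_inf_eq_top hQ ρ nB (inf_normal _ _ (fun i _ => inferInstance)) (hBtop ρ hρ)
          apply map_finset_inf_eq_top hQ ρ hρ
          · intro i _; infer_instance
          · intro τ hτ
            exact map_ker_eq_top ρ τ hρ (fun h => hk τ hτ (ker_le_imp ρ τ hρ h).2)
        have hmem : (ρ w)⁻¹ * c ∈ (B ⊓ S.inf (fun τ : F →* Q => τ.ker)).map ρ := by
          rw [hT]; exact mem_top _
        obtain ⟨t, ht, hρt⟩ := hmem
        have htB : t ∈ B := ht.1
        have htS : ∀ τ ∈ S, τ t = 1 := by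
          intro τ hτ
          have h1 : t ∈ S.inf (fun τ : F →* Q => τ.ker) := ht.2
          have h2 : S.inf (fun τ : F →* Q => τ.ker) ≤ τ.ker :=
            Finset.inf_le (f := fun τ : F →* Q => τ.ker) hτ
          exact MonoidHom.mem_ker.mp (h2 h1)
        refine ⟨w * t, B.mul_mem hwB htB, ?_⟩
        intro σ hσ
        rcases Finset.mem_insert.mp hσ with rfl | hσ
        · rw [map_mul, hρt]; simp
        · rw [map_mul, htS σ hσ, mul_one]; exact hw σ hσ
  obtain ⟨w, hwB, hw⟩ := key (Finset.univ.filter (fun τ : F →* Q => Function.Surjective τ))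
    (by intro ρ hρ; simpa using hρ)
  refine ⟨w, hwB.1, ?_, ?_⟩
  · intro τ hτ
    have h1 : w ∈ NS.inf (fun τ : F →* Q => ⁅τ.ker, τ.ker⁆) := hwB.2
    have h2 : NS.inf (fun τ : F →* Q => ⁅τ.ker, τ.ker⁆) ≤ ⁅τ.ker, τ.ker⁆ :=
      Finset.inf_le (f := fun τ : F →* Q => ⁅τ.ker, τ.ker⁆) (by simpa [hNS] using hτ)
    exact h2 h1
  · intro ρ hρ
    exact hw ρ (by simpa using hρ)

end Pool.Agent.LibMP91def8al
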