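import Pool.Agent.Lib_MP_91def8_al.Word

set_option autoImplicit false

namespace Pool.Agent.LibMP91def8al

open Subgroup
open scoped commutatorElement

/-- The alternating group of degree five. -/
abbrev A5 : Type := alternatingGroup (Fin 5)

/-- The permutational wreath product of the additive group `R` with `A5` on five points. -/
abbrev W (R : Type) [AddCommGroup R] : Type :=
  (Fin 5 → Multiplicative R) ⋊[mulAutArrow] A5

section

variable {R : Type} [AddCommGroup R]

theorem pow_right (x : W R) (n : ℕ) : (x ^ n).right = x.right ^ n := by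
  have := map_pow (SemidirectProduct.rightHom : W R →* A5) x n
  simpa using this

theorem pow_left (x : W R) (n : ℕ) (i : Fin 5) :
    (x ^ n).left i = ∏ j ∈ Finset.range n, x.left ((x.right ^ j)⁻¹ • i) := by
  induction n with
  | zero => simp
  | succ n ih =>
    rw [pow_succ, SemidirectProduct.mul_left, Finset.prod_range_succ, ← ih, pow_right]
    rfl

theorem transitive_of_order_five (q : Equiv.Perm (Fin 5)) (hq : orderOf q = 5) (i k : Fin 5) :
    ∃ j < 5, (q ^ j)⁻¹ i = k := by
  have hc : q.IsCycle := Equiv.Perm.isCycle_of_prime_order'' (by simp; norm_num) (by simpa using hq)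
  have hs : q.support = Finset.univ := by
    rw [← Finset.card_eq_iff_eq_univ, ← hc.orderOf, hq]; simp
  have hi : q i ≠ i := by
    rw [← Equiv.Perm.mem_support, hs]; exact Finset.mem_univ _
  have hk : q k ≠ k := by
    rw [← Equiv.Perm.mem_support, hs]; exact Finset.mem_univ _
  obtain ⟨n, hn⟩ := hc.exists_pow_eq hk hi
  refine ⟨n % 5, Nat.mod_lt _ (by norm_num), ?_⟩
  have h5 : q ^ (n % 5) = q ^ n := by
    have := pow_mod_orderOf q n
    rwa [hq] at this
  rw [Equiv.Perm.inv_eq_iff_eq, h5, hn]

theorem prod_orbit (q : A5) (hq : orderOf q = 5) (f : Fin 5 → Multiplicative R) (i : Fin 5) :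
    ∏ j ∈ Finset.range 5, f ((q ^ j)⁻¹ • i) = ∏ k, f k := by
  have hq' : orderOf (q : Equiv.Perm (Fin 5)) = 5 := by
    exact (Subgroup.orderOf_coe q).trans hq
  have hsurj : (Finset.range 5).image (fun j => (q ^ j)⁻¹ • i) = Finset.univ := by
    apply Finset.eq_univ_of_forall
    intro k
    obtain ⟨j, hj, hjk⟩ := transitive_of_order_five (q : Equiv.Perm (Fin 5)) hq' i k
    rw [Finset.mem_image]
    exact ⟨j, Finset.mem_range.mpr hj, hjk⟩
  rw [← hsurj, Finset.prod_image]
  apply Finset.card_image_iff.mp
  rw [hsurj]; simp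

/-- The product of all coordinates. -/
def total : W R →* Multiplicative R where
  toFun x := ∏ i, x.left i
  map_one' := by simp
  map_mul' x y := by
    simp only [SemidirectProduct.mul_left, Pi.mul_apply, Finset.prod_mul_distrib,
      mulAutArrow_apply_apply]
    congr 1
    exact Equiv.prod_comp (MulAction.toPerm (x.right⁻¹) : Equiv.Perm (Fin 5)) (fun i => y.left i)

theorem pow_five_eq_one (x : W R) (h1 : total x = 1) (h2 : orderOf x.right = 5) : x ^ 5 = 1 := by
  apply SemidirectProduct.ext
  · funext i
    rw [pow_left, prod_orbit x.right h2]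
    exact h1
  · rw [pow_right]
    have h3 := pow_orderOf_eq_one x.right
    rwa [h2] at h3

/-- Elements of the second commutator type vanish on the translation subgroup. -/
theorem commutator_ker_rightHom :
    ⁅(SemidirectProduct.rightHom : W R →* A5).ker, (SemidirectProduct.rightHom : W R →* A5).ker⁆
      = ⊥ := by
  rw [← SemidirectProduct.range_inl_eq_ker_rightHom, eq_bot_iff, commutator_le]
  rintro _ ⟨a, rfl⟩ _ ⟨b, rfl⟩
  rw [mem_bot, commutatorElement_eq_one_iff_mul_comm, ← map_mul, ← map_mul, mul_comm]

/-- Functoriality of the wreath product in the base group. -/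
def wmap {S : Type} [AddCommGroup S] (f : R →+ S) : W R →* W S :=
  SemidirectProduct.map
    (MonoidHom.compLeft (AddMonoidHom.toMultiplicative f) (Fin 5)) (MonoidHom.id A5)
    (by intro g; apply MonoidHom.ext; intro x; funext i; rfl)

end

theorem residually_finite (g : W ℤ) (hg : g ≠ 1) :
    ∃ H : Subgroup (W ℤ), H.Normal ∧ H.FiniteIndex ∧ g ∉ H := by
  by_cases hr : g.right = 1
  · have hl : ∃ i, g.left i ≠ 1 := by
      by_contra hcon
      push Not at hcon
      apply hg
      apply SemidirectProduct.ext
      · funext i; exact hcon i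
      · exact hr
    obtain ⟨i, hi⟩ := hl
    set m : ℕ := (Multiplicative.toAdd (g.left i)).natAbs + 1 with hm
    have : NeZero m := ⟨by omega⟩
    let f : W ℤ →* W (ZMod m) := wmap (Int.castAddHom (ZMod m))
    have : Finite (W (ZMod m)) := Finite.of_equiv _ (SemidirectProduct.equivProd).symm
    refine ⟨f.ker, inferInstance, inferInstance, ?_⟩
    intro hmem
    have h1 : f g = 1 := MonoidHom.mem_ker.mp hmem
    have h2 : (f g).left i = 1 := by rw [h1]; rfl
    have h3 : ((Multiplicative.toAdd (g.left i) : ℤ) : ZMod m) = 0 := h2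
    rw [ZMod.intCast_zmod_eq_zero_iff_dvd] at h3
    have h4 : (Multiplicative.toAdd (g.left i) : ℤ) ≠ 0 := fun h => hi (by
      exact h)
    have h5 := Int.natAbs_dvd_natAbs.mpr h3
    have h6 := Nat.le_of_dvd (Int.natAbs_pos.mpr h4) h5
    simp only [Int.natAbs_natCast] at h6
    omega
  · refine ⟨(SemidirectProduct.rightHom : W ℤ →* A5).ker, inferInstance, inferInstance, ?_⟩
    intro hmem
    exact hr (MonoidHom.mem_ker.mp hmem)

theorem exists_noncomm : ∃ a b : A5, a * b ≠ b * a := by
  by_contra h
  push Not at h
  have h1 : IsMulCommutative A5 := ⟨⟨h⟩⟩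
  have : Nat.Prime (Nat.card A5) := by
    let _ : CommGroup A5 := { (inferInstance : Group A5) with mul_comm := h }
    exact IsSimpleGroup.prime_card
  rw [Nat.card_eq_fintype_card] at this
  revert this
  rw [show Fintype.card A5 = 60 by decide]
  norm_num

end Pool.Agent.LibMP91def8al
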